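import Pool.Agent.Helper21.KL.LOGTOP
import Pool.Agent.Helper18.KC.ORD
import Pool.Agent.Helper18.KC.LAM
import Pool.Agent.Helper46.KC.MEN
import Pool.Agent.Results.MP_35885f_co.FractionalTreewidth

/-!
From multigraphs to simple graphs.
-/

namespace BNTW

open Finset Module

/-- The bound for a rooted tree decomposition. -/
theorem nice_of_isRTD {V E T : Type} [Fintype V] [Fintype E] [DecidableEq V] [DecidableEq E]
    [Fintype T] {p : T → T} {d : T → ℕ} {root : T} {bag : T → Finset V} {ends : E → V × V}
    {k : ℕ} (h : IsRTD p d root bag ends univ k) (hloop : ∀ e, (ends e).1 ≠ (ends e).2)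
    {own D : ℕ} (hstep : StepProp ends (k + 1) (3 * (k + 1)) own) (hD : k + 1 ≤ 2 ^ D) :
    Nice ends univ (7 * (own * (D + 1)) + 12 * (k + 1)) := by
  obtain ⟨L, hL⟩ := exists_lam h
  refine nice_log hL (by omega) ?_ ?_ hloop hstep hD
  · intro t ht x y hxy hx hy
    exact linear_order hL ht hxy hx hy
  · intro P cap x y h1 h2
    exact Pool.Agent.Helper46.KC.two_routes (bdry ends) P cap x y h1 h2

/-- A basis from a nice family. -/
theorem basis_of_nice {V E : Type} [Fintype E] [DecidableEq V] [DecidableEq E]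
    {ends : E → V × V} {N : ℕ} (h : Nice ends univ N) {C : Submodule (ZMod 2) (E → ZMod 2)}
    (hC : ∀ z, z ∈ C ↔ ∀ x, bd ends z x = 0) :
    ∃ b : Basis (Fin (finrank (ZMod 2) C)) (ZMod 2) C, ∀ e,
      (univ.filter (fun i => (b i : E → ZMod 2) e ≠ 0)).card ≤ N := by
  classical
  obtain ⟨F, hF, hply⟩ := h
  obtain ⟨B, hBX, hBspan, hBli⟩ := exists_linearIndependent (ZMod 2) (F : Set (E → ZMod 2))
  have hspan : Submodule.span (ZMod 2) B = C := by
    rw [hBspan]
    apply le_antisymm
    · rw [Submodule.span_le]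
      intro z hz
      exact (hC z).2 (hF.1 z hz).2
    · intro z hz
      exact hF.2 z (subset_univ _) ((hC z).1 hz)
  have hBfin : B.Finite := (finite_toSet F).subset hBX
  have : Fintype B := hBfin.fintype
  let b₁ : Basis B (ZMod 2) (Submodule.span (ZMod 2) (Set.range (Subtype.val : B → E → ZMod 2))) :=
    Basis.span hBli
  have hr : Submodule.span (ZMod 2) (Set.range (Subtype.val : B → E → ZMod 2)) = C := by
    rw [Subtype.range_coe]; exact hspan
  let b₂ : Basis B (ZMod 2) C := b₁.map (LinearEquiv.ofEq _ _ hr)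
  have hb₂ : ∀ i : B, (b₂ i : E → ZMod 2) = i.1 := by
    intro i
    simp only [b₂, Basis.map_apply, LinearEquiv.coe_ofEq_apply]
    exact congrArg Subtype.val (Basis.span_apply hBli i)
  have hcard : Fintype.card B = finrank (ZMod 2) C := (Module.finrank_eq_card_basis b₂).symm
  let φ : B ≃ Fin (finrank (ZMod 2) C) := Fintype.equivFinOfCardEq hcard
  refine ⟨b₂.reindex φ, fun e => ?_⟩
  refine le_trans ?_ (hply e)
  unfold ply
  apply card_le_card_of_injOn (fun i => (b₂.reindex φ i : E → ZMod 2))
  · intro i hi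
    have hi' : (b₂.reindex φ i : E → ZMod 2) e ≠ 0 := by simpa using hi
    rw [mem_coe, mem_filter]
    refine ⟨?_, hi'⟩
    have h2 : (b₂.reindex φ i : E → ZMod 2) = (φ.symm i).1 := by
      rw [Basis.reindex_apply, hb₂]
    beta_reduce
    rw [h2]
    exact mem_coe.1 (hBX (φ.symm i).2)
  · intro i _ j _ hij
    exact (b₂.reindex φ).injective (Subtype.ext hij)

end BNTW

namespace Pool.Agent.Helper21.KL

open Finset Module BNTW
open Pool.Agent.Results.MP_35885f_co

/-- The step with own cost `w + b`. -/
def HubStep : Prop := ∀ (V E : Type) [Fintype V] [Fintype E] [DecidableEq V] [DecidableEq E]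
  (ends : E → V × V) (b w : ℕ), StepProp ends b w (w + b)

/-- The bound for simple graphs. -/
theorem basisNumber_le (hub : HubStep) {V : Type} [Fintype V] (G : SimpleGraph V) {k : ℕ}
    (hk : FractionalTreewidth.HasTreeDecomposition G k) {D : ℕ} (hD : k + 1 ≤ 2 ^ D) :
    LogarithmicPly.basisNumber G ≤ 7 * ((4 * (k + 1)) * (D + 1)) + 12 * (k + 1) := by
  classical
  obtain ⟨N, hN, T, B, hT, hconn, hadj, hcard⟩ := hk
  have : Fintype N := Fintype.ofFinite N
  let ends : G.edgeSet → V × V := fun e => ((Quot.out (e : Sym2 V)).1, (Quot.out (e : Sym2 V)).2)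
  have hends : ∀ e : G.edgeSet, s((ends e).1, (ends e).2) = (e : Sym2 V) := fun e =>
    Quot.out_eq (e : Sym2 V)
  have hAdj : ∀ e : G.edgeSet, G.Adj (ends e).1 (ends e).2 := by
    intro e
    rw [← SimpleGraph.mem_edgeSet, hends e]
    exact e.2
  have hloop : ∀ e, (ends e).1 ≠ (ends e).2 := fun e => (hAdj e).ne
  obtain ⟨p, d, root, hrtd⟩ := exists_rtd hT B k hcard (fun v => (hconn v).preconnected) ends univ
    (fun e _ => hadj _ _ (hAdj e))
  have hnice := nice_of_isRTD hrtd hloop (own := 3 * (k + 1) + (k + 1))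
    (hub V G.edgeSet ends (k + 1) (3 * (k + 1))) hD
  have hC : ∀ z, z ∈ LogarithmicPly.cycleSpace G ↔ ∀ x, bd ends z x = 0 := by
    intro z
    have h1 : ∀ (v : V) (e : G.edgeSet), z e * BNTW.inc ends e v =
        if v ∈ (e : Sym2 V) then z e else 0 := by
      intro v e
      have h4 : v ∈ (e : Sym2 V) ↔ v = (ends e).1 ∨ v = (ends e).2 := by
        rw [← Sym2.mem_iff, hends e]
      unfold BNTW.inc
      by_cases h5 : (ends e).1 = v
      · have h6 : ¬ (ends e).2 = v := fun h => hloop e (h5.trans h.symm)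
        rw [if_pos h5, if_neg h6, if_pos (h4.2 (Or.inl h5.symm))]
        simp
      · by_cases h6 : (ends e).2 = v
        · rw [if_neg h5, if_pos h6, if_pos (h4.2 (Or.inr h6.symm))]
          simp
        · rw [if_neg h5, if_neg h6, if_neg]
          · simp
          · rw [h4]
            rintro (h | h)
            · exact h5 h.symm
            · exact h6 h.symm
    have h2 : ∀ v, bd ends z v = ∑ e : G.edgeSet, (if v ∈ (e : Sym2 V) then z e else 0) := by
      intro v
      unfold bd
      exact sum_congr rfl fun e _ => h1 v e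
    constructor
    · intro hz v
      rw [h2]
      exact (LogarithmicPly.even_iff z v).1 (hz v)
    · intro hz v
      rw [LogarithmicPly.even_iff, ← h2]
      exact hz v
  obtain ⟨b, hb⟩ := basis_of_nice hnice hC
  apply Nat.sInf_le
  refine ⟨b, fun e => ?_⟩
  refine le_trans (le_of_eq ?_) ((hb e).trans (le_of_eq (by ring)))
  unfold LogarithmicPly.ply
  rw [Nat.card_eq_fintype_card, Fintype.card_subtype]
  congr 1
  ext i
  simp only [mem_filter, mem_univ, true_and]
  constructor
  · intro h
    rw [h]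
    exact one_ne_zero
  · intro h
    exact (zmod2_cases _).resolve_left h

end Pool.Agent.Helper21.KL
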