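import Pool.Agent.Helper18.KC.SEQ

/-!
The separated sets of the members of a laminar family are laminar; choice of a heavy terminal.
-/

namespace BNTW

open Finset

universe u

variable {V E : Type u} [Fintype E] [Fintype V] [DecidableEq V] [DecidableEq E]

/-- The terminals of `S` that `c` separates from `x0` inside `t`. -/
noncomputable def sepS (ends : E → V × V) (t : Finset E) (S : Finset V) (x0 : V)
    (c : Finset E) : Finset V := by
  classical
  exact S.filter (fun x => ¬ Cn ends (t \ c) x0 x)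

omit [Fintype E] [Fintype V] in
lemma mem_sepS {ends : E → V × V} {t : Finset E} {S : Finset V} {x0 : V} {c : Finset E} {x : V} :
    x ∈ sepS ends t S x0 c ↔ x ∈ S ∧ ¬ Cn ends (t \ c) x0 x := by
  classical
  unfold sepS
  rw [mem_filter]

omit [Fintype E] [Fintype V] in
lemma sepS_mono {ends : E → V × V} {t : Finset E} {S : Finset V} {x0 : V} {c c' : Finset E}
    (h : c' ⊆ c) : sepS ends t S x0 c' ⊆ sepS ends t S x0 c := by
  intro x hx
  rw [mem_sepS] at hx ⊢
  exact ⟨hx.1, fun h2 => hx.2 (h2.mono (sdiff_subset_sdiff (Subset.refl t) h))⟩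

omit [Fintype E] [Fintype V] in
/-- If `c'` is not reached from `x0` outside `c''`, its separated set is smaller. -/
lemma sepS_sub_of_not_reached {ends : E → V × V} {t : Finset E} {S : Finset V} {x0 : V}
    {c' c'' : Finset E} (h : ∀ u ∈ VS ends c', ¬ Cn ends (t \ c'') x0 u) :
    sepS ends t S x0 c' ⊆ sepS ends t S x0 c'' := by
  intro x hx
  rw [mem_sepS] at hx ⊢
  refine ⟨hx.1, fun h2 => hx.2 ?_⟩
  have key : ∀ v, Cn ends (t \ c'') x0 v → Cn ends (t \ c') x0 v := by
    intro v hv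
    unfold Cn at hv
    induction hv with
    | refl => exact Relation.ReflTransGen.refl
    | @tail a d hpath hstep ih =>
      obtain ⟨e, he, hj⟩ := hstep
      have hec : e ∉ c' := fun hec => h a (mem_VS.2 ⟨e, hec, hj.mem.1⟩) hpath
      exact Relation.ReflTransGen.tail ih
        ⟨e, mem_sdiff.2 ⟨(mem_sdiff.1 he).1, hec⟩, hj⟩
  exact key x h2

omit [Fintype E] [Fintype V] in
/-- If both are reached, the separated sets are disjoint. -/
lemma sepS_disj_of_reached {ends : E → V × V} {t : Finset E} {S : Finset V} {x0 : V}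
    {c' c'' : Finset E} (hd : Disjoint c' c'') (h' : IsCn ends c') (h'' : IsCn ends c'')
    (ht' : c' ⊆ t) (ht'' : c'' ⊆ t) (htc : ∀ x ∈ S, Cn ends t x0 x)
    {u' : V} (hu' : u' ∈ VS ends c') (hr' : Cn ends (t \ c'') x0 u')
    {u'' : V} (hu'' : u'' ∈ VS ends c'') (hr'' : Cn ends (t \ c') x0 u'') :
    Disjoint (sepS ends t S x0 c') (sepS ends t S x0 c'') := by
  rw [Finset.disjoint_left]
  intro x hx1 hx2
  rw [mem_sepS] at hx1 hx2
  have hc'sub : c' ⊆ t \ c'' := fun e he =>
    mem_sdiff.2 ⟨ht' he, fun h3 => (Finset.disjoint_left.1 hd) he h3⟩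
  have hc''sub : c'' ⊆ t \ c' := fun e he =>
    mem_sdiff.2 ⟨ht'' he, fun h3 => (Finset.disjoint_left.1 hd) h3 he⟩
  have hall' : ∀ v ∈ VS ends c', Cn ends (t \ c'') x0 v := fun v hv =>
    hr'.trans' ((h'.2 u' hu' v hv).mono hc'sub)
  have hall'' : ∀ v ∈ VS ends c'', Cn ends (t \ c') x0 v := fun v hv =>
    hr''.trans' ((h''.2 u'' hu'' v hv).mono hc''sub)
  -- walk from `x0` to `x` inside `t`: invariant from the end `x`
  have key : ∀ v, Cn ends t x v → (¬ Cn ends (t \ c') x0 v ∧ ¬ Cn ends (t \ c'') x0 v) := by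
    intro v hv
    unfold Cn at hv
    induction hv with
    | refl => exact ⟨hx1.2, hx2.2⟩
    | @tail a d _ hstep ih =>
      obtain ⟨e, he, hj⟩ := hstep
      have he' : e ∉ c' := fun h3 => ih.2 (hall' a (mem_VS.2 ⟨e, h3, hj.mem.1⟩))
      have he'' : e ∉ c'' := fun h3 => ih.1 (hall'' a (mem_VS.2 ⟨e, h3, hj.mem.1⟩))
      refine ⟨fun h3 => ih.1 ?_, fun h3 => ih.2 ?_⟩
      · exact Relation.ReflTransGen.tail h3 ⟨e, mem_sdiff.2 ⟨he, he'⟩, hj.symm'⟩
      · exact Relation.ReflTransGen.tail h3 ⟨e, mem_sdiff.2 ⟨he, he''⟩, hj.symm'⟩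
  exact (key x0 (htc x hx1.1).symm').1 Relation.ReflTransGen.refl

omit [Fintype E] [Fintype V] in
/-- The separated sets are laminar. -/
lemma sepS_laminar {ends : E → V × V} {t : Finset E} {S : Finset V} {x0 : V}
    {c' c'' : Finset E} (hlam : c' ⊆ c'' ∨ c'' ⊆ c' ∨ Disjoint c' c'')
    (h' : IsCn ends c') (h'' : IsCn ends c'')
    (ht' : c' ⊆ t) (ht'' : c'' ⊆ t) (htc : ∀ x ∈ S, Cn ends t x0 x) :
    sepS ends t S x0 c' ⊆ sepS ends t S x0 c'' ∨ sepS ends t S x0 c'' ⊆ sepS ends t S x0 c' ∨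
      Disjoint (sepS ends t S x0 c') (sepS ends t S x0 c'') := by
  rcases hlam with h | h | hd
  · exact Or.inl (sepS_mono h)
  · exact Or.inr (Or.inl (sepS_mono h))
  · by_cases h1 : ∀ u ∈ VS ends c', ¬ Cn ends (t \ c'') x0 u
    · exact Or.inl (sepS_sub_of_not_reached h1)
    · by_cases h2 : ∀ u ∈ VS ends c'', ¬ Cn ends (t \ c') x0 u
      · exact Or.inr (Or.inl (sepS_sub_of_not_reached h2))
      · push Not at h1 h2
        obtain ⟨u', hu', hr'⟩ := h1
        obtain ⟨u'', hu'', hr''⟩ := h2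
        exact Or.inr (Or.inr (sepS_disj_of_reached hd h' h'' ht' ht'' htc hu' hr' hu'' hr''))

omit [Fintype V] in
/-- **The heavy terminal.**  All members inside `c` that do not separate it from `x0` have at most
half of the separated terminals. -/
theorem exists_heavy {ends : E → V × V} {b : ℕ} {L : Finset (Finset E)} (hL : Lam ends b L)
    {t : Finset E} {S : Finset V} {x0 : V} (htc : ∀ x ∈ S, Cn ends t x0 x)
    {c : Finset E} (hc : c ∈ L) (hct : c ⊆ t) (hne : (sepS ends t S x0 c).Nonempty) :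
    ∃ x ∈ sepS ends t S x0 c, ∀ c' ∈ L, c' ⊆ c → c' ∉ Uxy ends L t x0 x →
      2 * (sepS ends t S x0 c').card ≤ (sepS ends t S x0 c).card := by
  classical
  set Z : Finset (Finset E) := L.filter (fun c' => c' ⊆ c ∧
    (sepS ends t S x0 c).card < 2 * (sepS ends t S x0 c').card) with hZ
  have hcard : 0 < (sepS ends t S x0 c).card := card_pos.2 hne
  have hZne : Z.Nonempty := ⟨c, by
    rw [hZ, mem_filter]; exact ⟨hc, Subset.refl _, by omega⟩⟩
  obtain ⟨c1, hc1, hmin⟩ := exists_min_image Z (fun c' => (sepS ends t S x0 c').card) hZne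
  have hc1' := hc1
  rw [hZ, mem_filter] at hc1'
  obtain ⟨hc1L, hc1c, hc1h⟩ := hc1'
  have hc1ne : (sepS ends t S x0 c1).Nonempty := card_pos.1 (by omega)
  obtain ⟨x, hx⟩ := hc1ne
  refine ⟨x, sepS_mono hc1c hx, ?_⟩
  intro c' hc'L hc'c hc'U
  by_contra hcon
  push Not at hcon
  have hc'Z : c' ∈ Z := by rw [hZ, mem_filter]; exact ⟨hc'L, hc'c, hcon⟩
  have hle := hmin c' hc'Z
  have hxc' : x ∉ sepS ends t S x0 c' := by
    intro h2
    rw [mem_sepS] at h2
    exact hc'U (mem_Uxy.2 ⟨hc'L, hc'c.trans hct, h2.2⟩)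
  rcases sepS_laminar (S := S) (hL.lam c1 hc1L c' hc'L) (hL.conn c1 hc1L) (hL.conn c' hc'L)
    (hc1c.trans hct) (hc'c.trans hct) htc with h | h | h
  · exact hxc' (h hx)
  · have h3 := eq_of_subset_of_card_le h hle
    exact hxc' (h3 ▸ hx)
  · have h4 : (sepS ends t S x0 c1).card + (sepS ends t S x0 c').card ≤
        (sepS ends t S x0 c).card := by
      rw [← card_union_of_disjoint h]
      exact card_le_card (union_subset (sepS_mono hc1c) (sepS_mono hc'c))
    omega

end BNTW
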