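import Pool.Agent.Helper21.KL.HEAVY
import Pool.Agent.Helper18.KC.REC

/-!
Refining a member of a laminar family, in logarithmically many steps, into pieces that separate
no terminal.
-/

namespace BNTW

open Finset

universe u

variable {V E : Type u} [Fintype E] [Fintype V] [DecidableEq V] [DecidableEq E]

/-- One refinement step with own cost `own` for linear width `w`. -/
def StepProp (ends : E → V × V) (b w own : ℕ) : Prop :=
  ∀ (Λ : ℕ) (c : Finset E) (P : Finset (Finset E)) (n : ℕ), (∀ ε ∈ P, ε ⊆ c) →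
    (∀ e ∈ c, ∃ ε ∈ P, e ∈ ε) → (∀ A ∈ P, ∀ B ∈ P, A ≠ B → Disjoint A B) →
    (∀ ε ∈ P, IsCn ends ε) → IsCn ends c → (∀ ε ∈ P, (bdry ends ε).card ≤ b) →
    ∀ (key : Finset E → ℕ), Set.InjOn key (P : Set (Finset E)) →
    (∀ c ∈ P, ((((P.filter (fun c' => key c' ≤ key c)).biUnion (bdry ends)) ∩
      ((P.filter (fun c' => key c < key c')).biUnion (bdry ends))) ∪ bdry ends c).card ≤ w) →
    ∀ (F : Finset (Finset E)) (X : Finset E → ℕ),
    (∀ f ∈ F, f.Nonempty ∧ ∃ ε ∈ P, f ⊆ ε) →
    (∀ ε ∈ P, RX ends Λ ε (n + own) (F.filter (fun f => f ⊆ ε)) X) →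
    RX ends Λ c n F X

/-- The final pieces of `c`: a partition into members that separate no terminal or are single. -/
structure Pieces (ends : E → V × V) (L : Finset (Finset E)) (t : Finset E) (S : Finset V)
    (x0 : V) (c : Finset E) (F : Finset (Finset E)) : Prop where
  sub : ∀ f ∈ F, f ∈ L ∧ f ⊆ c ∧ (sepS ends t S x0 f = ∅ ∨ f.card ≤ 1)
  cov : ∀ e ∈ c, ∃ f ∈ F, e ∈ f
  disj : ∀ A ∈ F, ∀ B ∈ F, A ≠ B → Disjoint A B

/-- **Logarithmic depth.** -/
theorem rx_log {ends : E → V × V} {b : ℕ} {L : Finset (Finset E)} (hL : Lam ends b L)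
    (hO : OrdProp ends b L) {own : ℕ} (hstep : StepProp ends b (3 * b) own)
    {t : Finset E} (ht : t ∈ L) {S : Finset V} {x0 : V} (hx0 : x0 ∈ VS ends t)
    (hS : S ⊆ VS ends t) :
    ∀ (d : ℕ) (c : Finset E), c ∈ L → c ⊆ t → ((sepS ends t S x0 c).card < 2 ^ d ∨ c.card ≤ 1) →
      ∃ F : Finset (Finset E), Pieces ends L t S x0 c F ∧
        ∀ (Λ n : ℕ) (X : Finset E → ℕ),
          (∀ f ∈ F, RX ends Λ f (n + own * d + X f) ∅ (fun _ => 0)) → RX ends Λ c n F X := by
  classical
  have htc : ∀ x ∈ S, Cn ends t x0 x := fun x hx => (hL.conn t ht).2 x0 hx0 x (hS hx)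
  intro d
  have single : ∀ (d : ℕ) (c : Finset E), c ∈ L → (sepS ends t S x0 c = ∅ ∨ c.card ≤ 1) →
      ∃ F : Finset (Finset E), Pieces ends L t S x0 c F ∧
        ∀ (Λ n : ℕ) (X : Finset E → ℕ),
          (∀ f ∈ F, RX ends Λ f (n + own * d + X f) ∅ (fun _ => 0)) → RX ends Λ c n F X := by
    intro d c hc hsep
    refine ⟨{c}, ⟨?_, ?_, ?_⟩, ?_⟩
    · intro f hf
      rw [mem_singleton] at hf
      subst hf
      exact ⟨hc, Subset.refl _, hsep⟩
    · intro e he
      exact ⟨c, mem_singleton_self c, he⟩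
    · intro A hA B hB hne
      rw [mem_singleton] at hA hB
      exact absurd (hA.trans hB.symm) hne
    · intro Λ n X h
      apply RX_single
      refine RX.mono ?_ (h c (mem_singleton_self c))
      omega
  induction d with
  | zero =>
    intro c hc hct hsep
    apply single 0 c hc
    rcases hsep with hsep | hsep
    · left
      rw [pow_zero] at hsep
      exact card_eq_zero.1 (by omega)
    · exact Or.inr hsep
  | succ d ih =>
    intro c hc hct hsep
    by_cases h0 : sepS ends t S x0 c = ∅ ∨ c.card ≤ 1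
    · exact single (d + 1) c hc h0
    · push Not at h0
      obtain ⟨hne, hc1⟩ := h0
      have hsep' : (sepS ends t S x0 c).card < 2 ^ (d + 1) :=
        hsep.resolve_right (by omega)
      obtain ⟨x, hx, hheavy⟩ := exists_heavy hL htc hc hct hne
      have hxS := (mem_sepS.1 hx).1
      have hxx : x0 ≠ x := by
        rintro rfl
        exact (mem_sepS.1 hx).2 Relation.ReflTransGen.refl
      have hcU : c ∈ Uxy ends L t x0 x := mem_Uxy.2 ⟨hc, hct, (mem_sepS.1 hx).2⟩
      set P := (Elt ends L t x0 x).filter (fun ε => ε ⊆ c) with hP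
      have hPE : P ⊆ Elt ends L t x0 x := filter_subset _ _
      have hPL : ∀ ε ∈ P, ε ∈ L ∧ ε ⊆ c := fun ε hε =>
        ⟨(mem_Elt.1 (hPE hε)).1, (mem_filter.1 hε).2⟩
      have hPdisj : ∀ A ∈ P, ∀ B ∈ P, A ≠ B → Disjoint A B :=
        fun A hA B hB hne => Elt_disj hL A (hPE hA) B (hPE hB) hne
      have hPcov := Elt_cover hL hcU
      have hex : ∀ ε : Finset E, ∃ F : Finset (Finset E), ε ∈ P →
          (Pieces ends L t S x0 ε F ∧ ∀ (Λ n : ℕ) (X : Finset E → ℕ),
          (∀ f ∈ F, RX ends Λ f (n + own * d + X f) ∅ (fun _ => 0)) → RX ends Λ ε n F X) := by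
        intro ε
        by_cases hε : ε ∈ P
        · have h1 := hPL ε hε
          have h2 := (mem_Elt.1 (hPE hε)).2.2.2
          obtain ⟨F, hF⟩ := ih ε h1.1 (h1.2.trans hct) (by
            rcases h2 with h2 | h2
            · left
              have h3 := hheavy ε h1.1 h1.2 h2
              rw [pow_succ] at hsep'
              omega
            · right
              omega)
          exact ⟨F, fun _ => hF⟩
        · exact ⟨∅, fun h => absurd h hε⟩
      choose FF hFF using hex
      obtain ⟨key, hkey, hksep⟩ := hO t ht x0 x hxx hx0 (hS hxS)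
      refine ⟨P.biUnion FF, ⟨?_, ?_, ?_⟩, ?_⟩
      · intro f hf
        rw [mem_biUnion] at hf
        obtain ⟨ε, hε, hf⟩ := hf
        obtain ⟨a1, a2, a3⟩ := (hFF ε hε).1.sub f hf
        exact ⟨a1, a2.trans (hPL ε hε).2, a3⟩
      · intro e he
        obtain ⟨ε, hε, heε⟩ := hPcov e he
        obtain ⟨f, hf, hef⟩ := (hFF ε hε).1.cov e heε
        exact ⟨f, mem_biUnion.2 ⟨ε, hε, hf⟩, hef⟩
      · intro A hA B hB hne
        rw [mem_biUnion] at hA hB
        obtain ⟨ε, hε, hA⟩ := hA
        obtain ⟨ε', hε', hB⟩ := hB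
        by_cases hee : ε = ε'
        · subst hee
          exact (hFF ε hε).1.disj A hA B hB hne
        · exact disjoint_of_subset_left ((hFF ε hε).1.sub A hA).2.1
            (disjoint_of_subset_right ((hFF ε' hε').1.sub B hB).2.1 (hPdisj ε hε ε' hε' hee))
      · intro Λ n X h
        refine hstep Λ c P n (fun ε hε => (hPL ε hε).2) hPcov hPdisj
          (fun ε hε => hL.conn ε (hPL ε hε).1) (hL.conn c hc)
          (fun ε hε => hL.bcard ε (hPL ε hε).1) key
          (hkey.mono (by intro a ha; exact hPE ha))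
          (fun ε hε => (sep_mono hPE key ε).trans (hksep ε (hPE hε))) _ X ?_ ?_
        · intro f hf
          rw [mem_biUnion] at hf
          obtain ⟨ε, hε, hf⟩ := hf
          have h1 := (hFF ε hε).1.sub f hf
          exact ⟨(hL.conn f h1.1).1, ε, hε, h1.2.1⟩
        · intro ε hε
          have hfil : (P.biUnion FF).filter (fun f => f ⊆ ε) = FF ε := by
            ext f
            rw [mem_filter, mem_biUnion]
            constructor
            · rintro ⟨⟨ε', hε', hf⟩, hfε⟩
              have h1 := (hFF ε' hε').1.sub f hf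
              by_cases hee : ε' = ε
              · rw [← hee]; exact hf
              · exfalso
                obtain ⟨e, he⟩ := (hL.conn f h1.1).1
                exact (Finset.disjoint_left.1 (hPdisj ε' hε' ε hε hee)) (h1.2.1 he) (hfε he)
            · intro hf
              exact ⟨⟨ε, hε, hf⟩, ((hFF ε hε).1.sub f hf).2.1⟩
          rw [hfil]
          apply (hFF ε hε).2 Λ (n + own) X
          intro f hf
          have h1 := h f (mem_biUnion.2 ⟨ε, hε, hf⟩)
          refine RX.mono (le_of_eq ?_) h1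
          ring

/-- **The first refinement: into the children, then in logarithmically many steps.** -/
theorem rx_children_log {ends : E → V × V} {b : ℕ} {L : Finset (Finset E)} (hL : Lam ends b L)
    (hO : OrdProp ends b L) {own : ℕ} (hstep : StepProp ends b (3 * b) own)
    {t : Finset E} (ht : t ∈ L) (ht1 : 1 < t.card) {S : Finset V} {x0 : V}
    (hx0 : x0 ∈ VS ends t) (hS : S ⊆ VS ends t) {d : ℕ} (hd : S.card < 2 ^ d) :
    ∃ F : Finset (Finset E), Pieces ends L t S x0 t F ∧ (∀ f ∈ F, f ⊂ t) ∧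
        ∀ (Λ n : ℕ) (X : Finset E → ℕ),
          (∀ f ∈ F, RX ends Λ f (n + own * (d + 1) + X f) ∅ (fun _ => 0)) → RX ends Λ t n F X := by
  classical
  set P := children L t with hP
  have hPL : ∀ ε ∈ P, ε ∈ L ∧ ε ⊂ t ∧ ∀ D ∈ L, ε ⊆ D → D ⊂ t → D = ε :=
    fun ε hε => mem_children.1 hε
  have hcov : ∀ e ∈ t, ∃ ε ∈ P, e ∈ ε := by
    intro e he
    set Z : Finset (Finset E) := L.filter (fun D => e ∈ D ∧ D ⊂ t) with hZ
    have hsing : {e} ⊂ t := by
      rw [Finset.ssubset_iff_subset_ne]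
      refine ⟨singleton_subset_iff.2 he, ?_⟩
      rintro rfl
      rw [card_singleton] at ht1
      omega
    have hZne : Z.Nonempty := ⟨{e}, by
      rw [hZ, mem_filter]; exact ⟨hL.single e, mem_singleton_self e, hsing⟩⟩
    obtain ⟨ε, hε, hmax⟩ := exists_max_image Z Finset.card hZne
    rw [hZ, mem_filter] at hε
    obtain ⟨hεL, heε, hεt⟩ := hε
    refine ⟨ε, mem_children.2 ⟨hεL, hεt, ?_⟩, heε⟩
    intro D hD hsub hDt
    have h1 := hmax D (by rw [hZ, mem_filter]; exact ⟨hD, hsub heε, hDt⟩)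
    exact (eq_of_subset_of_card_le hsub h1).symm
  have hdisj : ∀ A ∈ P, ∀ B ∈ P, A ≠ B → Disjoint A B := by
    intro A hA B hB hne
    obtain ⟨a1, a2, a3⟩ := hPL A hA
    obtain ⟨b1, b2, b3⟩ := hPL B hB
    rcases hL.lam A a1 B b1 with h1 | h1 | h1
    · exact absurd (a3 B b1 h1 b2).symm hne
    · exact absurd (b3 A a1 h1 a2) hne
    · exact h1
  obtain ⟨BB, hBB, hchild⟩ := hL.bag t ht ht1
  set key : Finset E → ℕ := fun c => (Fintype.equivFin (Finset E) c : ℕ) with hkeydef
  have hkey : Function.Injective key := by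
    intro a c hac
    exact (Fintype.equivFin (Finset E)).injective (Fin.ext hac)
  have hbd : ∀ ε ∈ P, bdry ends ε ⊆ BB := fun ε hε =>
    hchild ε (hPL ε hε).1 (hPL ε hε).2.1 (hPL ε hε).2.2
  have hex : ∀ ε : Finset E, ∃ F : Finset (Finset E), ε ∈ P →
      (Pieces ends L t S x0 ε F ∧ ∀ (Λ n : ℕ) (X : Finset E → ℕ),
      (∀ f ∈ F, RX ends Λ f (n + own * d + X f) ∅ (fun _ => 0)) → RX ends Λ ε n F X) := by
    intro ε
    by_cases hε : ε ∈ P
    · obtain ⟨F, hF⟩ := rx_log hL hO hstep ht hx0 hS d ε (hPL ε hε).1 (hPL ε hε).2.1.subset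
        (Or.inl (lt_of_le_of_lt (card_le_card (fun x hx => (mem_sepS.1 hx).1)) hd))
      exact ⟨F, fun _ => hF⟩
    · exact ⟨∅, fun h => absurd h hε⟩
  choose FF hFF using hex
  refine ⟨P.biUnion FF, ⟨?_, ?_, ?_⟩, ?_, ?_⟩
  · intro f hf
    rw [mem_biUnion] at hf
    obtain ⟨ε, hε, hf⟩ := hf
    obtain ⟨a1, a2, a3⟩ := (hFF ε hε).1.sub f hf
    exact ⟨a1, a2.trans (hPL ε hε).2.1.subset, a3⟩
  · intro e he
    obtain ⟨ε, hε, heε⟩ := hcov e he
    obtain ⟨f, hf, hef⟩ := (hFF ε hε).1.cov e heε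
    exact ⟨f, mem_biUnion.2 ⟨ε, hε, hf⟩, hef⟩
  · intro A hA B hB hne
    rw [mem_biUnion] at hA hB
    obtain ⟨ε, hε, hA⟩ := hA
    obtain ⟨ε', hε', hB⟩ := hB
    by_cases hee : ε = ε'
    · subst hee
      exact (hFF ε hε).1.disj A hA B hB hne
    · exact disjoint_of_subset_left ((hFF ε hε).1.sub A hA).2.1
        (disjoint_of_subset_right ((hFF ε' hε').1.sub B hB).2.1 (hdisj ε hε ε' hε' hee))
  · intro f hf
    rw [mem_biUnion] at hf
    obtain ⟨ε, hε, hf⟩ := hf
    exact lt_of_le_of_lt ((hFF ε hε).1.sub f hf).2.1 (hPL ε hε).2.1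
  · intro Λ n X h
    refine hstep Λ t P n (fun ε hε => (hPL ε hε).2.1.subset) hcov hdisj
      (fun ε hε => hL.conn ε (hPL ε hε).1) (hL.conn t ht)
      (fun ε hε => hL.bcard ε (hPL ε hε).1) key hkey.injOn ?_ _ X ?_ ?_
    · intro c hc
      refine (card_le_card (?_ : _ ⊆ BB)).trans (hBB.trans (by omega))
      intro x hx
      rw [mem_union, mem_inter] at hx
      rcases hx with hx | hx
      · obtain ⟨ε, hε, hxε⟩ := mem_biUnion.1 hx.1
        exact hbd ε (mem_filter.1 hε).1 hxε
      · exact hbd c hc hx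
    · intro f hf
      rw [mem_biUnion] at hf
      obtain ⟨ε, hε, hf⟩ := hf
      have h1 := (hFF ε hε).1.sub f hf
      exact ⟨(hL.conn f h1.1).1, ε, hε, h1.2.1⟩
    · intro ε hε
      have hfil : (P.biUnion FF).filter (fun f => f ⊆ ε) = FF ε := by
        ext f
        rw [mem_filter, mem_biUnion]
        constructor
        · rintro ⟨⟨ε', hε', hf⟩, hfε⟩
          have h1 := (hFF ε' hε').1.sub f hf
          by_cases hee : ε' = ε
          · rw [← hee]; exact hf
          · exfalso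
            obtain ⟨e, he⟩ := (hL.conn f h1.1).1
            exact (Finset.disjoint_left.1 (hdisj ε' hε' ε hε hee)) (h1.2.1 he) (hfε he)
        · intro hf
          exact ⟨⟨ε, hε, hf⟩, ((hFF ε hε).1.sub f hf).2.1⟩
      rw [hfil]
      apply (hFF ε hε).2 Λ (n + own) X
      intro f hf
      have h1 := h f (mem_biUnion.2 ⟨ε, hε, hf⟩)
      refine RX.mono (le_of_eq ?_) h1
      ring

end BNTW
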