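import Pool.Agent.Helper21.KL.ROUND
import Pool.Agent.Helper21.KL.LOGREC

/-!
Routing the demands of a piece, with sides chosen by the potential, and the main induction.
-/

namespace BNTW

open Finset

universe u

variable {V E : Type u} [Fintype E] [Fintype V] [DecidableEq V] [DecidableEq E]

omit [Fintype E] [Fintype V] [DecidableEq V] [DecidableEq E] in
lemma RE.symm' {ι : Type*} {N : ι → Finset V} {Q : Finset ι} {x y : V}
    (hxy : RE N Q x y) : RE N Q y x := by
  unfold RE at hxy ⊢
  induction hxy with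
  | refl => exact Relation.ReflTransGen.refl
  | tail _ hstep ih =>
    obtain ⟨i, hi, h1, h2⟩ := hstep
    exact Relation.ReflTransGen.head ⟨i, hi, h2, h1⟩ ih

/-- **Routing the demands of a piece.** -/
theorem rx_top_log {ends : E → V × V} {b Λ N0 N1 : ℕ} {t : Finset E} (htc : IsCn ends t)
    (htb : (bdry ends t).card ≤ b) (hM : TwoRoutes (bdry ends)) (P : Finset (Finset E))
    (hPt : ∀ f ∈ P, f ⊆ t) (hcov : ∀ e ∈ t, ∃ f ∈ P, e ∈ f)
    (hdisj : ∀ A ∈ P, ∀ B ∈ P, A ≠ B → Disjoint A B)
    (havoid : ∀ f ∈ P, 1 < f.card → ∀ x ∈ bdry ends t, ∀ y ∈ bdry ends t, Cn ends (t \ f) x y)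
    (hN1 : ∀ m : ℕ, 4 ^ N0 * 2 ^ m ≤ 7 ^ N0 * 3 ^ b → m ≤ N1)
    (h : RX ends Λ t 0 P (fun f => if 1 < f.card then N1 else N0)) :
    RX ends Λ t N0 ∅ (fun _ => 0) := by
  classical
  intro ι κ _ _ dem loc exd hcount hdem _ hexd
  have hex : ∀ i, ¬ NT (exd i) := fun i hi => absurd (hexd i hi).1 (notMem_empty _)
  rcases (bdry ends t).eq_empty_or_nonempty with hbe | ⟨x0, hx0⟩
  · -- no demands at all
    have hNT : ∀ j, ¬ NT (dem j) := by
      intro j hj
      have := (hdem j hj).1
      rw [hbe] at this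
      exact notMem_empty _ this
    obtain ⟨B, rt0, rx, a1, a2, a3, a4, a5, a6⟩ := h ι κ dem loc exd
      (by
        rw [Nat.le_zero, card_eq_zero, filter_eq_empty_iff]
        exact fun j _ => hNT j)
      hdem
      (by
        intro f _
        have h0 : (univ.filter (fun i => loc i = f ∧ NT (exd i))) = ∅ := by
          rw [filter_eq_empty_iff]
          exact fun i _ hi => hex i hi.2
        rw [h0, card_empty]
        exact Nat.zero_le _)
      (fun i hi => absurd hi (hex i))
    exact ⟨B, rt0, rx, a1, a2, a3, a4, a5, a6⟩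
  -- the routes from `x0`
  have hroute : ∀ x : V, ∃ Y : Bool → Finset (Finset E), (∀ a, Y a ⊆ P) ∧
      (x ∈ bdry ends t → ∀ a, RE (bdry ends) (Y a) x0 x) ∧
      (∀ f, f ∈ Y true → f ∈ Y false → ¬ 1 < f.card) ∧
      (x ∉ bdry ends t → ∀ a, Y a = ∅) := by
    intro x
    by_cases hx : x ∈ bdry ends t
    · obtain ⟨Y1, hY1, Y2, hY2, hR1, hR2, hcap⟩ := hM P (fun f => 1 < f.card) x0 x
        (RE_of_Cn hcov hdisj
          (fun A hA hx => mem_bdry_of_subset (hPt A hA) hx hx0)
          (fun A hA hx' => mem_bdry_of_subset (hPt A hA) hx' hx)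
          (htc.2 _ (bdry_subset_VS hx0) _ (bdry_subset_VS hx)))
        (by
          intro f hf hfc
          apply RE_of_Cn (X := t \ f)
          · intro e he
            rw [mem_sdiff] at he
            obtain ⟨f', hf', hef'⟩ := hcov e he.1
            refine ⟨f', mem_erase.2 ⟨?_, hf'⟩, hef'⟩
            rintro rfl
            exact he.2 hef'
          · intro A hA B hB hne
            exact hdisj A (mem_erase.1 hA).2 B (mem_erase.1 hB).2 hne
          · intro A hA hx'
            exact mem_bdry_of_subset (hPt A (mem_erase.1 hA).2) hx' hx0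
          · intro A hA hx'
            exact mem_bdry_of_subset (hPt A (mem_erase.1 hA).2) hx' hx
          · exact havoid f hf hfc _ hx0 _ hx)
      refine ⟨fun a => if a then Y1 else Y2, ?_, ?_, ?_, fun h => absurd hx h⟩
      · intro a
        cases a with
        | true => simpa using hY1
        | false => simpa using hY2
      · intro _ a
        cases a with
        | true => simpa using hR1
        | false => simpa using hR2
      · intro f h1 h2
        exact hcap f (by simpa using h1) (by simpa using h2)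
    · exact ⟨fun _ => ∅, fun _ => empty_subset _, fun h => absurd h hx,
        fun f h1 => absurd h1 (notMem_empty f), fun _ _ => rfl⟩
  choose Y hYP hYR hYcap hY0 using hroute
  -- splitting
  have hPR : ∀ (q : V × V) (o : Bool × Bool), ∃ PR : Finset E → V × V,
      (∀ f, NT (PR f) → NT q ∧ q.1 ∈ bdry ends t ∧ q.2 ∈ bdry ends t ∧ f ∈ P ∧
        (f ∈ Y q.1 o.1 ∨ f ∈ Y q.2 o.2) ∧
        (PR f).1 ∈ bdry ends f ∧ (PR f).2 ∈ bdry ends f) ∧
      (NT q → q.1 ∈ bdry ends t → q.2 ∈ bdry ends t → ∀ z, ∑ f ∈ P, dl (PR f) z = dl q z) := by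
    intro q o
    by_cases hq : NT q ∧ q.1 ∈ bdry ends t ∧ q.2 ∈ bdry ends t
    · obtain ⟨hq1, hq2, hq3⟩ := hq
      have hR : RE (bdry ends) (Y q.1 o.1 ∪ Y q.2 o.2) q.1 q.2 :=
        Relation.ReflTransGen.trans ((hYR q.1 hq2 o.1).symm'.mono subset_union_left)
          ((hYR q.2 hq3 o.2).mono subset_union_right)
      obtain ⟨p1, a1, a2⟩ := pair_split (bdry ends) (Y q.1 o.1 ∪ Y q.2 o.2) _ _ hR
      have hYY : Y q.1 o.1 ∪ Y q.2 o.2 ⊆ P := union_subset (hYP _ _) (hYP _ _)
      refine ⟨p1, ?_, ?_⟩
      · intro f hf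
        obtain ⟨c1, c2, c3⟩ := a1 f hf
        exact ⟨hq1, hq2, hq3, hYY c1, mem_union.1 c1, c2, c3⟩
      · intro _ _ _ z
        rw [← sum_subset hYY]
        · exact a2 z
        · intro f _ hfY
          apply dl_trivial
          intro hNT
          exact hfY (a1 f hNT).1
    · refine ⟨fun _ => (q.1, q.1), fun f hf => absurd rfl hf, ?_⟩
      intro c1 c2 c3
      exact absurd ⟨c1, c2, c3⟩ hq
  choose PR hPR1 hPR2 using hPR
  -- the usage vectors
  set comp : Bool × Bool → Bool → Bool := fun v a => if a then v.1 else v.2 with hcomp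
  set W : Finset (V → Bool × Bool) := Fintype.piFinset (fun x =>
    if x ∈ bdry ends t then {(true, false), (false, true), (false, false)}
    else {(false, false)}) with hW
  have hWcard : W.card ≤ 3 ^ b := by
    rw [hW, Fintype.card_piFinset]
    have h1 : ∀ x : V, (if x ∈ bdry ends t then
        ({(true, false), (false, true), (false, false)} : Finset (Bool × Bool))
        else {(false, false)}).card = if x ∈ bdry ends t then 3 else 1 := by
      intro x
      split_ifs
      · decide
      · decide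
    rw [prod_congr rfl (fun x _ => h1 x), prod_ite, prod_const, prod_const_one, mul_one]
    have h2 : (univ.filter (fun x => x ∈ bdry ends t)) = bdry ends t := by
      ext x
      simp
    rw [h2]
    exact Nat.pow_le_pow_right (by norm_num) htb
  set uv : Finset E → V → Bool × Bool := fun f x =>
    (decide (f ∈ Y x true), decide (f ∈ Y x false)) with huv
  have huvW : ∀ f, 1 < f.card → uv f ∈ W := by
    intro f hf
    rw [hW, Fintype.mem_piFinset]
    intro x
    by_cases hx : x ∈ bdry ends t
    · rw [if_pos hx]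
      by_cases h1 : f ∈ Y x true
      · have h2 : f ∉ Y x false := fun h2 => hYcap x f h1 h2 hf
        simp [huv, h1, h2]
      · by_cases h2 : f ∈ Y x false
        · simp [huv, h1, h2]
        · simp [huv, h1, h2]
    · rw [if_neg hx]
      simp [huv, hY0 x hx]
  set use : ι → Bool × Bool → (V → Bool × Bool) → Prop := fun j o u =>
    comp (u (dem j).1) o.1 = true ∨ comp (u (dem j).2) o.2 = true with huse
  have havo : ∀ j ∈ univ.filter (fun j => NT (dem j)), ∀ u ∈ W, ∃ o, ¬ use j o u := by
    intro j _ u hu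
    rw [hW, Fintype.mem_piFinset] at hu
    have h1 : ∀ x, ∃ a, ¬ comp (u x) a = true := by
      intro x
      have hux := hu x
      split_ifs at hux
      · simp only [mem_insert, mem_singleton] at hux
        rcases hux with h | h | h
        · exact ⟨false, by rw [h]; simp [hcomp]⟩
        · exact ⟨true, by rw [h]; simp [hcomp]⟩
        · exact ⟨true, by rw [h]; simp [hcomp]⟩
      · rw [mem_singleton] at hux
        exact ⟨true, by rw [hux]; simp [hcomp]⟩
    obtain ⟨a, ha⟩ := h1 (dem j).1
    obtain ⟨c, hc⟩ := h1 (dem j).2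
    refine ⟨(a, c), ?_⟩
    simp only [huse]
    push Not
    exact ⟨by simpa using ha, by simpa using hc⟩
  obtain ⟨σ, hσ⟩ := exists_choice W use (univ.filter (fun j => NT (dem j))) havo
  have hcnt : ∀ f ∈ P, (univ.filter (fun q : ι × Finset E => q.2 = f ∧
      NT (PR (dem q.1) (σ q.1) q.2))).card ≤ (if 1 < f.card then N1 else N0) := by
    intro f _
    set S := univ.filter (fun j : ι => NT (PR (dem j) (σ j) f)) with hS
    have h1 : (univ.filter (fun q : ι × Finset E => q.2 = f ∧
        NT (PR (dem q.1) (σ q.1) q.2))).card ≤ S.card := by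
      apply card_le_card_of_injOn (fun q => q.1)
      · intro q hq
        have hq' : q.2 = f ∧ NT (PR (dem q.1) (σ q.1) q.2) := by simpa using hq
        rw [mem_coe, hS, mem_filter]
        refine ⟨mem_univ _, ?_⟩
        rw [← hq'.1]
        exact hq'.2
      · intro q hq q' hq' heq
        have h2 : q.2 = f ∧ NT (PR (dem q.1) (σ q.1) q.2) := by simpa using hq
        have h3 : q'.2 = f ∧ NT (PR (dem q'.1) (σ q'.1) q'.2) := by simpa using hq'
        exact Prod.ext heq (h2.1.trans h3.1.symm)
    refine h1.trans ?_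
    split_ifs with hf
    · apply hN1
      set J := univ.filter (fun j : ι => NT (dem j)) with hJ
      have hSsub : S ⊆ J.filter (fun j => use j (σ j) (uv f)) := by
        intro j hj
        rw [hS, mem_filter] at hj
        have h2 := hPR1 (dem j) (σ j) f hj.2
        rw [mem_filter, hJ, mem_filter]
        refine ⟨⟨mem_univ _, h2.1⟩, ?_⟩
        have hcd : ∀ (x : V) (a : Bool), f ∈ Y x a → comp (uv f x) a = true := by
          intro x a ha
          cases a with
          | true => simp [hcomp, huv, ha]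
          | false => simp [hcomp, huv, ha]
        simp only [huse]
        rcases h2.2.2.2.2.1 with h3 | h3
        · exact Or.inl (hcd _ _ h3)
        · exact Or.inr (hcd _ _ h3)
      have h3 : 2 ^ S.card ≤ ∑ u ∈ W, 2 ^ (J.filter (fun j => use j (σ j) u)).card := by
        refine le_trans (Nat.pow_le_pow_right (by norm_num) (card_le_card hSsub)) ?_
        exact single_le_sum (f := fun u => 2 ^ (J.filter (fun j => use j (σ j) u)).card)
          (fun _ _ => Nat.zero_le _) (huvW f hf)
      have h4 : 4 ^ J.card * ∑ u ∈ W, 2 ^ (J.filter (fun j => use j (σ j) u)).card ≤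
          7 ^ J.card * W.card := by
        refine le_trans (le_of_eq ?_) hσ
        congr 1
        apply sum_congr rfl
        intro u _
        congr!
      have h5 : 4 ^ J.card * 2 ^ S.card ≤ 7 ^ J.card * 3 ^ b :=
        (Nat.mul_le_mul_left _ h3).trans (h4.trans (Nat.mul_le_mul_left _ hWcard))
      have h6 : J.card ≤ N0 := hcount
      obtain ⟨r, hr⟩ := Nat.exists_eq_add_of_le h6
      rw [hr, pow_add, pow_add]
      calc 4 ^ J.card * 4 ^ r * 2 ^ S.card = 4 ^ r * (4 ^ J.card * 2 ^ S.card) := by ring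
        _ ≤ 7 ^ r * (7 ^ J.card * 3 ^ b) :=
            Nat.mul_le_mul (Nat.pow_le_pow_left (by norm_num) r) h5
        _ = 7 ^ J.card * 7 ^ r * 3 ^ b := by ring
    · refine (card_le_card ?_).trans hcount
      intro j hj
      rw [hS, mem_filter] at hj
      rw [mem_filter]
      exact ⟨mem_univ _, (hPR1 (dem j) (σ j) f hj.2).1⟩
  obtain ⟨B, rt0, rx, a1, a2, a3, a4, a5, a6⟩ := h PEmpty (ι × Finset E) (fun x => x.elim)
    (fun q => q.2) (fun q => PR (dem q.1) (σ q.1) q.2) (by simp) (fun x => x.elim) hcnt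
    (by
      intro q hq
      have := hPR1 (dem q.1) (σ q.1) q.2 hq
      exact ⟨this.2.2.2.1, this.2.2.2.2.2⟩)
  set rt : ι → E → ZMod 2 := fun j => ∑ f ∈ P, rx (j, f) with hrt
  have hrx : ∀ j, ∀ f ∈ P, supp (rx (j, f)) ⊆ t ∧ ∀ x, bd ends (rx (j, f)) x =
      dl (PR (dem j) (σ j) f) x := by
    intro j f hf
    by_cases hNT : NT (PR (dem j) (σ j) f)
    · have := a4 (j, f) hNT
      exact ⟨this.1.trans (hPt f hf), this.2⟩
    · have h0 := a5 (j, f) hNT
      rw [h0]
      refine ⟨?_, fun x => by rw [bd_zero, dl_trivial hNT]⟩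
      rw [(supp_eq_empty_iff _).2 rfl]
      exact empty_subset _
  refine ⟨B, rt, fun _ => 0, a1, ?_, ?_, fun i hi => absurd hi (hex i), fun _ _ => rfl, ?_⟩
  · intro j
    refine ⟨supp_sum_subset _ _ _ (fun f hf => (hrx j f hf).1), ?_⟩
    intro x
    simp only [hrt]
    rw [bd_sum, sum_congr rfl (fun f hf => (hrx j f hf).2 x)]
    by_cases hNT : NT (dem j)
    · exact hPR2 (dem j) (σ j) hNT (hdem j hNT).1 (hdem j hNT).2 x
    · rw [dl_trivial hNT]
      apply sum_eq_zero
      intro f _
      apply dl_trivial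
      intro h5
      exact hNT (hPR1 _ _ _ h5).1
  · intro j hj
    simp only [hrt]
    apply sum_eq_zero
    intro f _
    apply a5
    intro h5
    exact hj (hPR1 _ _ _ h5).1
  · intro e he
    have h6 := a6 e he
    have h7 : (univ.filter (fun j => rt j e ≠ 0)).card ≤
        (univ.filter (fun q => rx q e ≠ 0)).card := by
      have h8 : univ.filter (fun j => rt j e ≠ 0) ⊆
          (univ.filter (fun q => rx q e ≠ 0)).image (fun q => q.1) := by
        intro j hj
        rw [mem_filter] at hj
        have h9 := hj.2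
        simp only [hrt] at h9
        rw [Finset.sum_apply] at h9
        obtain ⟨f, _, hf⟩ := exists_ne_zero_of_sum_ne_zero h9
        rw [mem_image]
        exact ⟨(j, f), mem_filter.2 ⟨mem_univ _, hf⟩, rfl⟩
      exact (card_le_card h8).trans card_image_le
    have h10 : (univ.filter (fun _ : κ => ((0 : E → ZMod 2) e ≠ 0))).card = 0 := by simp
    beta_reduce
    rw [h10]
    omega

/-- **The main induction.** -/
theorem main_rec_log {ends : E → V × V} {b : ℕ} {L : Finset (Finset E)} (hL : Lam ends b L)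
    (hb : 1 ≤ b) (hO : OrdProp ends b L) (hM : TwoRoutes (bdry ends))
    (hloop : ∀ e, (ends e).1 ≠ (ends e).2) {own d : ℕ} (hstep : StepProp ends b (3 * b) own)
    (hd : b ≤ 2 ^ d) :
    ∀ (m : ℕ) (t : Finset E), t.card = m → t ∈ L →
      RX ends (7 * (own * (d + 1)) + 12 * b) t (6 * (own * (d + 1)) + 12 * b) ∅
        (fun _ => 0) := by
  classical
  set M := own * (d + 1) with hMdef
  intro m
  induction m using Nat.strong_induction_on with
  | _ m ih =>
  intro t htm ht
  have htpos : 0 < t.card := card_pos.2 (hL.conn t ht).1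
  by_cases ht1 : 1 < t.card
  · obtain ⟨x0, hx0V, hx0⟩ : ∃ x0 ∈ VS ends t, (bdry ends t).Nonempty → x0 ∈ bdry ends t := by
      rcases (bdry ends t).eq_empty_or_nonempty with h0 | ⟨x0, hx0⟩
      · obtain ⟨e0, he0⟩ := (hL.conn t ht).1
        refine ⟨(ends e0).1, mem_VS.2 ⟨e0, he0, mem_endsSet.2 (Or.inl rfl)⟩, ?_⟩
        intro h1
        rw [h0] at h1
        exact absurd h1 not_nonempty_empty
      · exact ⟨x0, bdry_subset_VS hx0, fun _ => hx0⟩
    set S := (bdry ends t).erase x0 with hS
    have hSV : S ⊆ VS ends t := fun x hx => bdry_subset_VS (mem_erase.1 hx).2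
    have hScard : S.card < 2 ^ d := by
      refine lt_of_lt_of_le ?_ hd
      rcases (bdry ends t).eq_empty_or_nonempty with h0 | hne
      · rw [hS, h0, erase_empty, card_empty]
        exact hb
      · rw [hS, card_erase_of_mem (hx0 hne)]
        have h1 := hL.bcard t ht
        have h2 : 0 < (bdry ends t).card := card_pos.2 hne
        omega
    obtain ⟨F, hF, hFt, hRX⟩ := rx_children_log hL hO hstep ht ht1 hx0V hSV hScard
    apply rx_top_log (N1 := 5 * M + 12 * b) (hL.conn t ht) (hL.bcard t ht) hM F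
      (fun f hf => (hF.sub f hf).2.1) hF.cov hF.disj
    · intro f hf hf1 x hx y hy
      have hx0f : ∀ x ∈ bdry ends t, Cn ends (t \ f) x0 x := by
        intro x hx
        by_cases hxx : x = x0
        · rw [hxx]; exact Relation.ReflTransGen.refl
        · rcases (hF.sub f hf).2.2 with h1 | h1
          · by_contra h2
            have h3 : x ∈ sepS ends t S x0 f :=
              mem_sepS.2 ⟨mem_erase.2 ⟨hxx, hx⟩, h2⟩
            rw [h1] at h3
            exact notMem_empty x h3
          · omega
      exact (hx0f x hx).symm'.trans' (hx0f y hy)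
    · intro m' hm'
      exact load_le hm'
    · apply hRX
      intro f hf
      by_cases hf1 : 1 < f.card
      · have h1 := ih f.card (by rw [← htm]; exact card_lt_card (hFt f hf)) f rfl (hF.sub f hf).1
        refine RX.mono ?_ h1
        simp only [if_pos hf1]
        omega
      · have hf0 : 0 < f.card := card_pos.2 (hL.conn f (hF.sub f hf).1).1
        obtain ⟨e, rfl⟩ := card_eq_one.1 (show f.card = 1 by omega)
        apply RX_edge (hloop e)
        simp only [if_neg hf1]
        omega
  · obtain ⟨e, rfl⟩ := card_eq_one.1 (show t.card = 1 by omega)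
    exact RX_edge (hloop e) (by omega)

/-- From the pieces to the whole multigraph. -/
theorem nice_of_rx {ends : E → V × V} {b : ℕ} {L : Finset (Finset E)} (hL : Lam ends b L)
    {Λ : ℕ} (hRX : ∀ t ∈ L, RX ends Λ t 0 ∅ (fun _ => 0)) : Nice ends univ Λ := by
  classical
  set M : Finset (Finset E) := L.filter (fun A => bdry ends A = ∅) with hM'
  have hML : ∀ A ∈ M, A ∈ L ∧ bdry ends A = ∅ := fun A hA => mem_filter.1 hA
  -- members of `M` are pairwise disjoint
  have hclosed : ∀ A ∈ M, ∀ B ∈ L, A ⊆ B → B ⊆ A := by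
    intro A hA B hB hAB
    obtain ⟨hAL, hA0⟩ := hML A hA
    obtain ⟨e0, he0⟩ := (hL.conn A hAL).1
    have hin : ∀ e : E, ∀ v, v ∈ endsSet ends e → v ∈ VS ends A → e ∈ A := by
      intro e v hv hvA
      by_contra he
      have : v ∈ bdry ends A := mem_bdry.2 ⟨hvA, e, he, hv⟩
      rw [hA0] at this
      exact notMem_empty v this
    have hreach : ∀ u v, Cn ends B u v → u ∈ VS ends A → v ∈ VS ends A := by
      intro u v huv hu
      unfold Cn at huv
      induction huv with
      | refl => exact hu
      | tail _ hstep ih =>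
        obtain ⟨e, _, hj⟩ := hstep
        have h1 := hin e _ hj.mem.1 ih
        exact mem_VS.2 ⟨e, h1, hj.mem.2⟩
    intro e he
    have hv0 : (ends e0).1 ∈ endsSet ends e0 := mem_endsSet.2 (Or.inl rfl)
    have hv : (ends e).1 ∈ endsSet ends e := mem_endsSet.2 (Or.inl rfl)
    have h1 := (hL.conn B hB).2 _ (mem_VS.2 ⟨e0, hAB he0, hv0⟩) _ (mem_VS.2 ⟨e, he, hv⟩)
    exact hin e _ hv (hreach _ _ h1 (mem_VS.2 ⟨e0, he0, hv0⟩))
  have hdisj : ∀ A ∈ M, ∀ B ∈ M, A ≠ B → Disjoint A B := by
    intro A hA B hB hne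
    rcases hL.lam A (hML A hA).1 B (hML B hB).1 with h | h | h
    · exact absurd (Subset.antisymm h (hclosed A hA B (hML B hB).1 h)) hne
    · exact absurd (Subset.antisymm (hclosed B hB A (hML A hA).1 h) h) hne
    · exact h
  have hcov : ∀ e : E, ∃ A ∈ M, e ∈ A := by
    intro e
    obtain ⟨A, hA, heA, hA0⟩ := hL.top e
    exact ⟨A, mem_filter.2 ⟨hA, hA0⟩, heA⟩
  have hfam : ∀ A : Finset E, ∃ B : Finset (E → ZMod 2), A ∈ M →
      (Spans ends A B ∧ ∀ e ∈ A, ply B e ≤ Λ) := by
    intro A
    by_cases hA : A ∈ M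
    · obtain ⟨B, rt, rx, a1, _, _, _, _, a6⟩ := hRX A (hML A hA).1 PEmpty PEmpty
        (fun x => x.elim) (fun x => x.elim) (fun x => x.elim)
        (by simp) (fun x => x.elim) (fun f hf => absurd hf (notMem_empty f)) (fun x => x.elim)
      refine ⟨B, fun _ => ⟨a1, ?_⟩⟩
      intro e he
      have := a6 e he
      omega
    · exact ⟨∅, fun h => absurd h hA⟩
  choose Bf hBf using hfam
  refine ⟨M.biUnion Bf, ⟨?_, ?_⟩, ?_⟩
  · intro z hz
    rw [mem_biUnion] at hz
    obtain ⟨A, hA, hz⟩ := hz
    exact ⟨subset_univ _, ((hBf A hA).1.1 z hz).2⟩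
  · intro z _ hzb
    have hzsum : z = ∑ A ∈ M, rst A z := by
      ext e
      obtain ⟨A, hA, heA⟩ := hcov e
      rw [sum_apply_piece hdisj (fun A => rst A z) (fun A _ => supp_rst A z) hA heA]
      unfold rst
      rw [if_pos heA]
    rw [hzsum]
    apply Submodule.sum_mem
    intro A hA
    have h1 := (hBf A hA).1.2 (rst A z) (supp_rst A z) (by
      intro x
      apply bd_rst_eq_zero hzb
      rw [(hML A hA).2]
      exact notMem_empty x)
    refine Submodule.span_mono ?_ h1
    intro y hy
    exact mem_coe.2 (mem_biUnion.2 ⟨A, hA, mem_coe.1 hy⟩)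
  · intro e
    obtain ⟨A, hA, heA⟩ := hcov e
    refine le_trans ?_ ((hBf A hA).2 e heA)
    unfold ply
    apply card_le_card
    intro z hz
    rw [mem_filter, mem_biUnion] at hz
    obtain ⟨⟨A', hA', hz⟩, hze⟩ := hz
    rw [mem_filter]
    refine ⟨?_, hze⟩
    by_cases hAA : A' = A
    · rw [← hAA]; exact hz
    · exfalso
      have h3 := ((hBf A' hA').1.1 z hz).1 ((mem_supp z e).2 hze)
      exact (Finset.disjoint_left.1 (hdisj A' hA' A hA hAA)) h3 heA

/-- **The bound of order `b log b` for multigraphs without loops.** -/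
theorem nice_log {ends : E → V × V} {b : ℕ} {L : Finset (Finset E)} (hL : Lam ends b L)
    (hb : 1 ≤ b) (hO : OrdProp ends b L) (hM : TwoRoutes (bdry ends))
    (hloop : ∀ e, (ends e).1 ≠ (ends e).2) {own d : ℕ} (hstep : StepProp ends b (3 * b) own)
    (hd : b ≤ 2 ^ d) : Nice ends univ (7 * (own * (d + 1)) + 12 * b) :=
  nice_of_rx hL (fun t ht =>
    RX.mono (Nat.zero_le _) (main_rec_log hL hb hO hM hloop hstep hd t.card t rfl ht))

end BNTW
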