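import Pool.Agent.Helper18.KC.TOP

/-!
Choosing the sides of the routes by an exponential potential over the usage vectors.
-/

namespace BNTW

open Finset

/-- **The potential argument.**  Each element has four options, each type is avoided by one of
them; then there is a choice with small exponential potential. -/
theorem exists_choice {ι U : Type*} [DecidableEq ι] (W : Finset U)
    (use : ι → Bool × Bool → U → Prop) (J : Finset ι) :
    (∀ j ∈ J, ∀ u ∈ W, ∃ o, ¬ use j o u) →
    ∃ σ : ι → Bool × Bool, 4 ^ J.card * ∑ u ∈ W,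
      2 ^ (by classical exact (J.filter (fun j => use j (σ j) u)).card) ≤ 7 ^ J.card * W.card := by
  classical
  induction J using Finset.induction_on with
  | empty =>
    intro _
    refine ⟨fun _ => (true, true), ?_⟩
    simp
  | insert j J hj ih =>
    intro hav
    obtain ⟨σ, hσ⟩ := ih (fun i hi => hav i (mem_insert_of_mem hi))
    set A : U → ℕ := fun u => 2 ^ (J.filter (fun j => use j (σ j) u)).card with hA
    have hσ' : 4 ^ J.card * ∑ u ∈ W, A u ≤ 7 ^ J.card * W.card := by
      refine le_trans (le_of_eq ?_) hσ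
      congr 1
    -- one of the options is good
    have hopt : ∃ o : Bool × Bool, 4 * ∑ u ∈ W, A u * (if use j o u then 2 else 1) ≤
        7 * ∑ u ∈ W, A u := by
      have h1 : ∑ o : Bool × Bool, 4 * ∑ u ∈ W, A u * (if use j o u then 2 else 1) ≤
          ∑ _o : Bool × Bool, 7 * ∑ u ∈ W, A u := by
        rw [sum_const, card_univ, smul_eq_mul, ← mul_sum, sum_comm]
        have hc : Fintype.card (Bool × Bool) = 4 := by decide
        rw [hc]
        apply Nat.mul_le_mul_left
        rw [mul_sum]
        apply sum_le_sum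
        intro u hu
        rw [← mul_sum, mul_comm (7 : ℕ)]
        apply Nat.mul_le_mul_left
        obtain ⟨o0, ho0⟩ := hav j (mem_insert_self j J) u hu
        have h2 : ∑ o : Bool × Bool, (if use j o u then 2 else 1) =
            (if use j o0 u then 2 else 1) + ∑ o ∈ univ.erase o0, (if use j o u then 2 else 1) :=
          (add_sum_erase univ _ (mem_univ o0)).symm
        rw [h2, if_neg ho0]
        have h3 : ∑ o ∈ univ.erase o0, (if use j o u then 2 else 1) ≤
            ∑ _o ∈ univ.erase o0, 2 := by
          apply sum_le_sum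
          intro o _
          split_ifs <;> norm_num
        rw [sum_const, card_erase_of_mem (mem_univ o0), card_univ, hc, smul_eq_mul] at h3
        omega
      obtain ⟨o, _, ho⟩ := exists_le_of_sum_le (univ_nonempty) h1
      exact ⟨o, ho⟩
    obtain ⟨o, ho⟩ := hopt
    refine ⟨Function.update σ j o, ?_⟩
    have hload : ∀ u, ((insert j J).filter (fun i => use i (Function.update σ j o i) u)).card =
        (J.filter (fun i => use i (σ i) u)).card + (if use j o u then 1 else 0) := by
      intro u
      have h1 : J.filter (fun i => use i (Function.update σ j o i) u) =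
          J.filter (fun i => use i (σ i) u) := by
        apply filter_congr
        intro i hi
        have : i ≠ j := fun h => hj (h ▸ hi)
        rw [Function.update_of_ne this]
      rw [filter_insert, Function.update_self, h1]
      by_cases hu : use j o u
      · rw [if_pos hu, if_pos hu, card_insert_of_notMem]
        intro h
        exact hj (mem_filter.1 h).1
      · rw [if_neg hu, if_neg hu, add_zero]
    have hsum : ∑ u ∈ W, 2 ^ ((insert j J).filter
        (fun i => use i (Function.update σ j o i) u)).card =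
        ∑ u ∈ W, A u * (if use j o u then 2 else 1) := by
      apply sum_congr rfl
      intro u _
      rw [hload u]
      simp only [hA]
      by_cases hu : use j o u
      · rw [if_pos hu, if_pos hu, pow_succ]
      · rw [if_neg hu, if_neg hu, add_zero, mul_one]
    have hgoal : 4 ^ (insert j J).card * ∑ u ∈ W, 2 ^ ((insert j J).filter
        (fun i => use i (Function.update σ j o i) u)).card ≤ 7 ^ (insert j J).card * W.card := by
      rw [hsum, card_insert_of_notMem hj, pow_succ, pow_succ]
      calc 4 ^ J.card * 4 * ∑ u ∈ W, A u * (if use j o u then 2 else 1)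
          = 4 ^ J.card * (4 * ∑ u ∈ W, A u * (if use j o u then 2 else 1)) := by ring
        _ ≤ 4 ^ J.card * (7 * ∑ u ∈ W, A u) := Nat.mul_le_mul_left _ ho
        _ = 7 * (4 ^ J.card * ∑ u ∈ W, A u) := by ring
        _ ≤ 7 * (7 ^ J.card * W.card) := Nat.mul_le_mul_left _ hσ'
        _ = 7 ^ J.card * 7 * W.card := by ring
    refine le_trans (le_of_eq ?_) hgoal
    congr 1

/-- The numbers. -/
lemma load_le {b M m : ℕ} (h : 4 ^ (6 * M + 12 * b) * 2 ^ m ≤ 7 ^ (6 * M + 12 * b) * 3 ^ b) :
    m ≤ 5 * M + 12 * b := by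
  by_contra hcon
  push Not at hcon
  set N := 6 * M + 12 * b with hN
  have h1 : 2 ^ (5 * M + 12 * b + 1) ≤ 2 ^ m := Nat.pow_le_pow_right (by norm_num) hcon
  have h2 : 8 ^ N * 2 ≤ 7 ^ N * 3 ^ b * 2 ^ M := by
    calc 8 ^ N * 2 = 4 ^ N * 2 ^ (5 * M + 12 * b + 1) * 2 ^ M := by
          have h8 : (8 : ℕ) ^ N = 4 ^ N * 2 ^ N := by
            rw [← mul_pow]; norm_num
          have h9 : (2 : ℕ) ^ N = 2 ^ (5 * M + 12 * b) * 2 ^ M := by
            rw [← pow_add]; congr 1; omega
          rw [h8, h9, pow_succ]
          ring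
      _ ≤ 4 ^ N * 2 ^ m * 2 ^ M := by gcongr
      _ ≤ 7 ^ N * 3 ^ b * 2 ^ M := Nat.mul_le_mul_right _ h
  have h3 : 7 ^ N * (2 ^ M * 4 ^ b) ≤ 8 ^ N := by
    have e1 : (8 : ℕ) ^ N = (8 ^ 6) ^ (M + 2 * b) := by
      rw [← pow_mul]; congr 1; omega
    have e2 : (7 : ℕ) ^ N = (7 ^ 6) ^ (M + 2 * b) := by
      rw [← pow_mul]; congr 1; omega
    have e3 : (2 : ℕ) ^ M * 4 ^ b = 2 ^ (M + 2 * b) := by
      rw [pow_add, pow_mul]; norm_num
    rw [e1, e2, e3, ← mul_pow]
    apply Nat.pow_le_pow_left
    norm_num
  have h4 : (3 : ℕ) ^ b ≤ 4 ^ b := Nat.pow_le_pow_left (by norm_num) b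
  have h5 : 7 ^ N * 3 ^ b * 2 ^ M ≤ 7 ^ N * (2 ^ M * 4 ^ b) := by
    calc 7 ^ N * 3 ^ b * 2 ^ M = 7 ^ N * (2 ^ M * 3 ^ b) := by ring
      _ ≤ 7 ^ N * (2 ^ M * 4 ^ b) := by gcongr
  have h6 : 0 < 8 ^ N := by positivity
  omega

end BNTW
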